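import Mathlib

set_option autoImplicit false

/-!
# A compactly realizable countable Borel equivalence relation with no realization on Cantor space

The relation has exactly one class with more than one element; this class is infinite, and all the
other classes are singletons.  It is the orbit relation of a continuous action of the integers on a
compact metrizable space, but it is not the orbit relation of a continuous action of a
group on Cantor space.
-/

namespace Pool.Agent.Results.MP_04fd10_lc.OneInfiniteClass

open Set Topology

/-- `E` is realized on the topological space `K`: there are a countable group `Γ` acting on `K` by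
homeomorphisms and a Borel bijection `f : X → K` taking `E` to the orbit relation. -/
def Realized {X : Type} [MeasurableSpace X] (E : X → X → Prop) (K : Type) [TopologicalSpace K] :
    Prop :=
  ∃ (Γ : Type) (_ : Group Γ) (_ : Countable Γ) (_ : MulAction Γ K) (_ : ContinuousConstSMul Γ K)
    (f : X → K), Function.Bijective f ∧ @Measurable X K _ (borel K) f ∧
      ∀ x y : X, E x y ↔ ∃ γ : Γ, f y = γ • f x

/-- `E` is a countable Borel equivalence relation. -/
def IsCBER {X : Type} [MeasurableSpace X] (E : X → X → Prop) : Prop :=
  Equivalence E ∧ MeasurableSet {p : X × X | E p.1 p.2} ∧ ∀ x, {y | E x y}.Countable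

/-- Functions on the integers with at most one value `true`. -/
def P : Set (ℤ → Bool) := {c | ∀ i j, c i = true → c j = true → i = j}

theorem isClosed_P : IsClosed P := by
  have : P = ⋂ i, ⋂ j, {c : ℤ → Bool | c i = true → c j = true → i = j} := by
    ext c
    simp [P]
  rw [this]
  refine isClosed_iInter fun i => isClosed_iInter fun j => ?_
  have : {c : ℤ → Bool | c i = true → c j = true → i = j} =
      (fun c : ℤ → Bool => (c i, c j)) ⁻¹' {q : Bool × Bool | q.1 = true → q.2 = true → i = j} := rfl
  rw [this]
  exact (isClosed_discrete _).preimage ((continuous_apply i).prodMk (continuous_apply j))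

/-- The compact space. -/
abbrev K : Type := (ℕ → Bool) ⊕ P

instance : CompactSpace P := isCompact_iff_compactSpace.1 isClosed_P.isCompact
instance : PolishSpace P :=
  have : PolishSpace (ℤ → Bool) := by constructor
  isClosed_P.polishSpace
instance : PolishSpace K :=
  have : PolishSpace (ℕ → Bool) := by constructor
  by constructor

theorem uncountable_cantor : Uncountable (ℕ → Bool) := by
  rw [← not_countable_iff, ← Cardinal.mk_le_aleph0_iff, not_le]
  simpa using Cardinal.cantor Cardinal.aleph0

/-- The shift by `n`. -/
def shiftP (n : ℤ) (c : P) : P :=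
  ⟨fun i => c.1 (i - n), fun i j hi hj => by
    have := c.2 _ _ hi hj
    omega⟩

theorem continuous_shiftP (n : ℤ) : Continuous (shiftP n) := by
  refine Continuous.subtype_mk (continuous_pi fun i => ?_) _
  exact (continuous_apply (i - n) : Continuous fun c : ℤ → Bool => c (i - n)).comp
    continuous_subtype_val

instance : MulAction (Multiplicative ℤ) K where
  smul n x := Sum.map id (shiftP n.toAdd) x
  one_smul x := by
    rcases x with c | c
    · rfl
    · show Sum.inr _ = Sum.inr c
      congr 1
      apply Subtype.ext
      funext i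
      simp [shiftP]
  mul_smul m n x := by
    rcases x with c | c
    · rfl
    · show Sum.inr _ = Sum.inr _
      congr 1
      apply Subtype.ext
      funext i
      show c.1 (i - (m.toAdd + n.toAdd)) = c.1 (i - m.toAdd - n.toAdd)
      rw [sub_sub]

instance : ContinuousConstSMul (Multiplicative ℤ) K where
  continuous_const_smul n := continuous_id.sumMap (continuous_shiftP n.toAdd)

theorem smul_inl (n : Multiplicative ℤ) (c : ℕ → Bool) : n • (Sum.inl c : K) = Sum.inl c := rfl
theorem smul_inr (n : Multiplicative ℤ) (c : P) :
    n • (Sum.inr c : K) = Sum.inr (shiftP n.toAdd c) := rfl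

/-- The orbit relation. -/
def E (x y : K) : Prop := ∃ n : Multiplicative ℤ, y = n • x

/-- The point with value `true` exactly at `k`. -/
def pt (k : ℤ) : P := ⟨fun i => decide (i = k), fun i j hi hj => by
  simp only [decide_eq_true_eq] at hi hj
  omega⟩

theorem shiftP_pt (n k : ℤ) : shiftP n (pt k) = pt (k + n) := by
  apply Subtype.ext
  funext i
  show decide (i - n = k) = decide (i = k + n)
  congr 1
  apply propext
  omega

theorem eq_pt_of_true (c : P) (k : ℤ) (h : c.1 k = true) : c = pt k := by
  apply Subtype.ext
  funext i
  show c.1 i = decide (i = k)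
  by_cases hi : i = k
  · subst hi
    simp [h]
  · simp only [hi, decide_false]
    by_contra hne
    have : c.1 i = true := by simpa using hne
    exact hi (c.2 _ _ this h)

/-- points of `K` with nontrivial orbit -/
theorem nontriv_iff (x : K) : (∃ y, E x y ∧ y ≠ x) ↔ ∃ k, x = Sum.inr (pt k) := by
  constructor
  · rintro ⟨y, ⟨n, rfl⟩, hy⟩
    rcases x with c | c
    · exact absurd (smul_inl n c) hy
    · by_cases hc : ∃ k, c.1 k = true
      · obtain ⟨k, hk⟩ := hc
        exact ⟨k, by rw [eq_pt_of_true c k hk]⟩
      · push Not at hc
        exfalso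
        apply hy
        rw [smul_inr]
        congr 1
        apply Subtype.ext
        funext i
        show c.1 (i - n.toAdd) = c.1 i
        have h1 := hc i
        have h2 := hc (i - n.toAdd)
        simp only [Bool.not_eq_true] at h1 h2
        rw [h1, h2]
  · rintro ⟨k, rfl⟩
    refine ⟨Sum.inr (pt (k + 1)), ⟨Multiplicative.ofAdd 1, ?_⟩, ?_⟩
    · rw [smul_inr]
      simp [shiftP_pt]
    · intro h
      have h1 : pt (k + 1) = pt k := Sum.inr_injective h
      have h2 := congrFun (congrArg Subtype.val h1) k
      simp [pt] at h2

theorem E_equiv : Equivalence E := by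
  refine ⟨fun x => ⟨1, (one_smul _ x).symm⟩, ?_, ?_⟩
  · rintro x y ⟨n, rfl⟩
    exact ⟨n⁻¹, by rw [inv_smul_smul]⟩
  · rintro x y z ⟨n, rfl⟩ ⟨m, rfl⟩
    exact ⟨m * n, by rw [mul_smul]⟩

theorem E_countable (x : K) : {y | E x y}.Countable := by
  refine (countable_range fun n : Multiplicative ℤ => n • x).mono ?_
  rintro y ⟨n, hn⟩
  exact ⟨n, hn.symm⟩

/-- **Main result.** There is a countable Borel equivalence relation `E` on an uncountable standard
Borel space, with an infinite class and all other classes singletons, which is realized by a continuous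
action of a countable group on a compact metrizable space and is not realized on Cantor space. -/
theorem result : ∃ (X : Type) (_ : MeasurableSpace X) (_ : StandardBorelSpace X) (E : X → X → Prop),
    Uncountable X ∧ IsCBER E ∧
    (∃ C : Set X, C.Infinite ∧ (∀ x ∈ C, ∀ y, E x y ↔ y ∈ C) ∧ ∀ x, x ∉ C → ∀ y, E x y ↔ y = x) ∧
    (∃ (K : Type) (_ : TopologicalSpace K) (_ : CompactSpace K) (_ : TopologicalSpace.MetrizableSpace K),
      Realized E K) ∧
    ¬ Realized E (ℕ → Bool) := by
  let m : MeasurableSpace K := borel K
  have hb : BorelSpace K := ⟨rfl⟩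
  have hnt : ∀ k, ∃ y, E (Sum.inr (pt k)) y ∧ y ≠ Sum.inr (pt k) := fun k =>
    (nontriv_iff _).2 ⟨k, rfl⟩
  refine ⟨K, m, inferInstance, E, ?_, ⟨E_equiv, ?_, E_countable⟩,
    ⟨range fun k => Sum.inr (pt k), ?_, ?_, ?_⟩, ⟨K, inferInstance, inferInstance, inferInstance, ?_⟩, ?_⟩
  · have h1 : Function.Injective (Sum.inl : (ℕ → Bool) → K) := Sum.inl_injective
    have h2 : Uncountable (ℕ → Bool) := uncountable_cantor
    exact h1.uncountable
  · have : {p : K × K | E p.1 p.2} = ⋃ n : Multiplicative ℤ, {p : K × K | p.2 = n • p.1} := by
      ext p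
      simp [E]
    rw [this]
    refine MeasurableSet.iUnion fun n => ?_
    exact measurableSet_eq_fun measurable_snd
      ((continuous_const_smul n).measurable.comp measurable_fst)
  · refine infinite_range_of_injective fun k l hkl => ?_
    have h1 : pt k = pt l := Sum.inr_injective hkl
    have h2 := congrFun (congrArg Subtype.val h1) k
    simpa [pt] using h2
  · rintro _ ⟨k, rfl⟩ y
    constructor
    · rintro ⟨n, rfl⟩
      exact ⟨k + n.toAdd, by rw [smul_inr, shiftP_pt]⟩
    · rintro ⟨l, rfl⟩
      refine ⟨Multiplicative.ofAdd (l - k), ?_⟩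
      rw [smul_inr, shiftP_pt]
      simp
  · intro x hx y
    constructor
    · intro hxy
      by_contra hne
      obtain ⟨k, rfl⟩ := (nontriv_iff x).1 ⟨y, hxy, hne⟩
      exact hx ⟨k, rfl⟩
    · rintro rfl
      exact E_equiv.refl _
  · exact ⟨Multiplicative ℤ, inferInstance, inferInstance, inferInstance, inferInstance, id,
      Function.bijective_id, measurable_id, fun x y => Iff.rfl⟩
  · rintro ⟨Γ, _, _, _, _, f, hf, -, hE⟩
    -- the set of points of Cantor space with nontrivial orbit
    set U : Set (ℕ → Bool) := ⋃ γ : Γ, {x | γ • x ≠ x} with hU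
    have hUo : IsOpen U := isOpen_iUnion fun γ => (isClosed_eq (continuous_const_smul γ)
      continuous_id).isOpen_compl
    have hUe : U = f '' range fun k => (Sum.inr (pt k) : K) := by
      ext z
      obtain ⟨x, rfl⟩ := hf.2 z
      simp only [hU, mem_iUnion, mem_ofPred_eq]
      constructor
      · rintro ⟨γ, hγ⟩
        obtain ⟨y, hy⟩ := hf.2 (γ • f x)
        have hxy : E x y := (hE x y).2 ⟨γ, hy⟩
        have hne : y ≠ x := by
          rintro rfl
          exact hγ hy.symm
        obtain ⟨k, rfl⟩ := (nontriv_iff x).1 ⟨y, hxy, hne⟩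
        exact ⟨_, ⟨k, rfl⟩, rfl⟩
      · rintro ⟨_, ⟨k, rfl⟩, hk⟩
        have := hf.1 hk
        subst this
        obtain ⟨y, hy, hne⟩ := hnt k
        obtain ⟨γ, hγ⟩ := (hE _ _).1 hy
        refine ⟨γ, fun h => hne ?_⟩
        rw [h] at hγ
        exact hf.1 hγ
    have hUc : U.Countable := by
      rw [hUe]
      exact (countable_range _).image f
    have hUn : U.Nonempty := by
      rw [hUe]
      exact ⟨_, _, ⟨0, rfl⟩, rfl⟩
    obtain ⟨z, hz⟩ := hUn
    obtain ⟨I, u, hu, hsub⟩ := isOpen_pi_iff.mp hUo z hz
    obtain ⟨N, hN⟩ : ∃ N : ℕ, ∀ i ∈ I, i < N := ⟨I.sup id + 1, fun i hi =>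
      Nat.lt_succ_of_le (Finset.le_sup (f := id) hi)⟩
    -- an injection of Cantor space into `U`
    let g : (ℕ → Bool) → (ℕ → Bool) := fun w i => if i < N then z i else w (i - N)
    have hg : Function.Injective g := by
      intro w w' h
      funext i
      have := congrFun h (i + N)
      simpa [g] using this
    have hgU : ∀ w, g w ∈ U := by
      intro w
      refine hsub fun i hi => ?_
      have : i < N := hN i hi
      simp only [g, this, if_true]
      exact (hu i hi).2
    have h3 : (univ : Set (ℕ → Bool)).Countable :=
      MapsTo.countable_of_injOn (fun w _ => hgU w) hg.injOn hUc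
    have h4 : Countable (ℕ → Bool) := countable_univ_iff.1 h3
    have h5 : Uncountable (ℕ → Bool) := uncountable_cantor
    exact not_countable h4

end Pool.Agent.Results.MP_04fd10_lc.OneInfiniteClass
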